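import Pool.Agent.CVA.Defs

/-!
# Common distance vectors: the larger array is (nearly) a Golomb or Welch array
-/

namespace Pool.Agent.CVA

open Finset

/-- Window overlap. -/
def w (u : ℕ) (d : ℤ) : ℤ := max ((u : ℤ) - |d|) 0

lemma w_nonneg (u : ℕ) (d : ℤ) : 0 ≤ w u d := le_max_right _ _

lemma w_zero (u : ℕ) : w u 0 = u := by simp [w]

lemma w_neg (u : ℕ) (d : ℤ) : w u (-d) = w u d := by simp [w]

/-- Indicator that the window starting at `a` contains `x`. -/
def ind (u : ℕ) (a x : ℤ) : ℤ := if a ≤ x ∧ x < a + u then 1 else 0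

lemma sum_ind_mul (u n : ℕ) {x y : ℤ} (hx0 : 0 ≤ x) (hxn : x < n) (_hy0 : 0 ≤ y) (_hyn : y < n) :
    ∑ a ∈ Ioo (-(u : ℤ)) n, ind u a x * ind u a y = w u (x - y) := by
  have h1 : ∀ a ∈ Ioo (-(u : ℤ)) n, ind u a x * ind u a y =
      if a ∈ Ioc (max x y - u) (min x y) then 1 else 0 := by
    intro a _
    unfold ind
    rw [ite_zero_mul_ite_zero]
    simp only [mul_one]
    congr 1
    simp only [mem_Ioc, eq_iff_iff]
    constructor
    · rintro ⟨⟨h1, h2⟩, h3, h4⟩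
      constructor
      · rcases max_cases x y with h | h <;> omega
      · exact le_min h1 h3
    · rintro ⟨h1, h2⟩
      have := le_max_left x y
      have := le_max_right x y
      have := le_min_iff.1 h2
      omega
  rw [sum_congr rfl h1, sum_ite_mem]
  have h2 : Ioo (-(u : ℤ)) n ∩ Ioc (max x y - u) (min x y) = Ioc (max x y - u) (min x y) := by
    apply inter_eq_right.2
    intro a ha
    simp only [mem_Ioc, mem_Ioo] at ha ⊢
    have := le_max_left x y
    have := le_max_right x y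
    have := le_min_iff.1 ha.2
    omega
  rw [h2]
  simp only [sum_const, Int.card_Ioc, nsmul_eq_mul, mul_one]
  unfold w
  rcases le_total x y with h | h
  · rw [max_eq_right h, min_eq_left h, abs_of_nonpos (by omega)]
    rcases max_cases ((u : ℤ) - -(x - y)) 0 with h' | h' <;> omega
  · rw [max_eq_left h, min_eq_right h, abs_of_nonneg (by omega)]
    rcases max_cases ((u : ℤ) - (x - y)) 0 with h' | h' <;> omega

lemma sum_ind (u n : ℕ) {x : ℤ} (hx0 : 0 ≤ x) (hxn : x < n) :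
    ∑ a ∈ Ioo (-(u : ℤ)) n, ind u a x = u := by
  have := sum_ind_mul u n hx0 hxn hx0 hxn
  rw [sub_self, w_zero] at this
  refine Eq.trans ?_ this
  apply sum_congr rfl
  intro a _
  unfold ind
  split_ifs <;> simp

lemma sum_w (u : ℕ) : ∑ d ∈ Ioo (-(u : ℤ)) u, w u d = (u : ℤ) ^ 2 := by
  induction u with
  | zero => simp
  | succ u ih =>
      rcases Nat.eq_zero_or_pos u with rfl | hu
      · have : Ioo (-((0 + 1 : ℕ) : ℤ)) ((0 + 1 : ℕ) : ℤ) = {0} := by
          ext x; simp; omega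
        rw [this, sum_singleton, w_zero]
        norm_num
      have hset : Ioo (-((u + 1 : ℕ) : ℤ)) ((u + 1 : ℕ) : ℤ) =
          insert (-(u : ℤ)) (insert (u : ℤ) (Ioo (-(u : ℤ)) u)) := by
        ext x
        simp only [mem_Ioo, mem_insert]
        push_cast
        omega
      rw [hset, sum_insert, sum_insert]
      · have h1 : ∀ d ∈ Ioo (-(u : ℤ)) u, w (u + 1) d = w u d + 1 := by
          intro d hd
          rw [mem_Ioo] at hd
          have : |d| < u := abs_lt.2 hd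
          unfold w
          rw [max_eq_left (by push_cast; omega), max_eq_left (by omega)]
          push_cast; ring
        rw [sum_congr rfl h1, sum_add_distrib, ih]
        simp only [sum_const, Int.card_Ioo, nsmul_eq_mul, mul_one]
        have h2 : w (u + 1) (-(u : ℤ)) = 1 := by
          unfold w; rw [abs_neg, abs_of_nonneg (by positivity)]; push_cast; norm_num
        have h3 : w (u + 1) (u : ℤ) = 1 := by
          unfold w; rw [abs_of_nonneg (by positivity)]; push_cast; norm_num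
        rw [h2, h3]
        have h4 : (((u : ℤ) - -(u : ℤ) - 1).toNat : ℤ) = 2 * u - 1 := by omega
        rw [h4]; push_cast; ring
      · simp
      · simp only [mem_insert, mem_Ioo]
        omega

lemma sum_w_erase (u : ℕ) (hu : 0 < u) :
    ∑ d ∈ (Ioo (-(u : ℤ)) u).erase 0, w u d = (u : ℤ) * (u - 1) := by
  have h := sum_w u
  have h0 : (0 : ℤ) ∈ Ioo (-(u : ℤ)) u := by simp; omega
  rw [← add_sum_erase _ _ h0, w_zero] at h
  linarith

/-- The number of dots of `f` in the `u × u` window with corner `x`. -/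
def cnt {n : ℕ} (f : Equiv.Perm (Fin n)) (u : ℕ) (x : ℤ × ℤ) : ℤ :=
  ∑ i : Fin n, ind u x.1 ((i : ℕ) : ℤ) * ind u x.2 ((f i : ℕ) : ℤ)

lemma sum_cnt {n : ℕ} (f : Equiv.Perm (Fin n)) (u : ℕ) :
    ∑ x ∈ Ioo (-(u : ℤ)) n ×ˢ Ioo (-(u : ℤ)) n, cnt f u x = n * (u : ℤ) ^ 2 := by
  unfold cnt
  rw [sum_comm]
  have : ∀ i : Fin n, ∑ x ∈ Ioo (-(u : ℤ)) n ×ˢ Ioo (-(u : ℤ)) n,
      ind u x.1 ((i : ℕ) : ℤ) * ind u x.2 ((f i : ℕ) : ℤ) = (u : ℤ) ^ 2 := by
    intro i
    rw [sum_product]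
    simp only
    rw [← sum_mul_sum, sum_ind u n (by positivity) (by exact_mod_cast i.2),
      sum_ind u n (by positivity) (by exact_mod_cast (f i).2)]
    ring
  rw [sum_congr rfl (fun i _ => this i)]
  simp

lemma sum_cnt_sq {n : ℕ} (f : Equiv.Perm (Fin n)) (u : ℕ) :
    ∑ x ∈ Ioo (-(u : ℤ)) n ×ˢ Ioo (-(u : ℤ)) n, cnt f u x ^ 2 =
      ∑ p : Fin n × Fin n, w u (((p.1 : ℕ) : ℤ) - ((p.2 : ℕ) : ℤ)) *
        w u (((f p.1 : ℕ) : ℤ) - ((f p.2 : ℕ) : ℤ)) := by
  have h1 : ∀ x : ℤ × ℤ, cnt f u x ^ 2 = ∑ p : Fin n × Fin n,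
      (ind u x.1 ((p.1 : ℕ) : ℤ) * ind u x.1 ((p.2 : ℕ) : ℤ)) *
      (ind u x.2 ((f p.1 : ℕ) : ℤ) * ind u x.2 ((f p.2 : ℕ) : ℤ)) := by
    intro x
    unfold cnt
    rw [sq, sum_mul_sum, ← sum_product']
    apply sum_congr rfl
    intro p _
    ring
  rw [sum_congr rfl (fun x _ => h1 x), sum_comm]
  apply sum_congr rfl
  intro p _
  rw [sum_product]
  simp only
  rw [← sum_mul_sum, sum_ind_mul u n (by positivity) (by exact_mod_cast p.1.2) (by positivity)
    (by exact_mod_cast p.2.2), sum_ind_mul u n (by positivity) (by exact_mod_cast (f p.1).2)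
    (by positivity) (by exact_mod_cast (f p.2).2)]

/-- The off-diagonal part of the second moment. -/
def off {n : ℕ} (f : Equiv.Perm (Fin n)) (u : ℕ) : ℤ :=
  ∑ p ∈ (univ : Finset (Fin n)).offDiag, w u (((p.1 : ℕ) : ℤ) - ((p.2 : ℕ) : ℤ)) *
        w u (((f p.1 : ℕ) : ℤ) - ((f p.2 : ℕ) : ℤ))

lemma second_moment {n : ℕ} (f : Equiv.Perm (Fin n)) (u : ℕ) :
    ((n : ℤ) * (u : ℤ) ^ 2) ^ 2 ≤ ((n : ℤ) + u - 1) ^ 2 * (n * (u : ℤ) ^ 2 + off f u) := by
  rcases Nat.eq_zero_or_pos n with rfl | hn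
  · simp [off]
  have h1 := sq_sum_le_card_mul_sum_sq (s := Ioo (-(u : ℤ)) n ×ˢ Ioo (-(u : ℤ)) n) (f := cnt f u)
  rw [sum_cnt, sum_cnt_sq, card_product, Int.card_Ioo] at h1
  have h2 : ∑ p : Fin n × Fin n, w u (((p.1 : ℕ) : ℤ) - ((p.2 : ℕ) : ℤ)) *
        w u (((f p.1 : ℕ) : ℤ) - ((f p.2 : ℕ) : ℤ)) = n * (u : ℤ) ^ 2 + off f u := by
    unfold off
    rw [← univ_product_univ, ← diag_union_offDiag, sum_union (disjoint_diag_offDiag _), sum_diag]
    simp only [sub_self, w_zero, sum_const, card_univ, Fintype.card_fin, nsmul_eq_mul]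
    ring
  rw [h2] at h1
  have h3 : (((((n : ℤ) - -(u : ℤ) - 1).toNat * ((n : ℤ) - -(u : ℤ) - 1).toNat : ℕ)) : ℤ) =
      ((n : ℤ) + u - 1) ^ 2 := by
    rw [Nat.cast_mul]
    have : (((n : ℤ) - -(u : ℤ) - 1).toNat : ℤ) = (n : ℤ) + u - 1 := by omega
    rw [this]; ring
  rw [h3] at h1
  exact h1

/-- The difference map. -/
def dv {n : ℕ} (f : Equiv.Perm (Fin n)) (p : Fin n × Fin n) : ℤ × ℤ :=
  (((p.1 : ℕ) : ℤ) - ((p.2 : ℕ) : ℤ), ((f p.1 : ℕ) : ℤ) - ((f p.2 : ℕ) : ℤ))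

lemma dv_injOn {n : ℕ} {f : Equiv.Perm (Fin n)} (hf : IsCostas f) :
    Set.InjOn (dv f) ((univ : Finset (Fin n)).offDiag : Set (Fin n × Fin n)) := by
  rintro ⟨i, j⟩ hij ⟨k, l⟩ hkl h
  simp only [coe_offDiag, Set.mem_offDiag, ne_eq] at hij hkl
  simp only [dv, Prod.mk.injEq] at h
  rcases lt_or_gt_of_ne hij.2.2 with h1 | h1
  · have h2 : k < l := by
      rw [Fin.lt_def] at h1 ⊢
      omega
    have := hf i j k l h1 h2 (by rw [Prod.mk.injEq]; constructor <;> linarith)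
    rw [this.1, this.2]
  · have h2 : l < k := by
      rw [Fin.lt_def] at h1 ⊢
      omega
    have := hf j i l k h1 h2 (by rw [Prod.mk.injEq]; constructor <;> linarith)
    rw [this.1, this.2]

lemma off_eq {n : ℕ} {f : Equiv.Perm (Fin n)} (hf : IsCostas f) (u : ℕ) :
    off f u = ∑ v ∈ ((univ : Finset (Fin n)).offDiag).image (dv f), w u v.1 * w u v.2 := by
  rw [sum_image (fun a ha b hb h => dv_injOn hf ha hb h)]
  rfl

lemma mem_image_dv {n : ℕ} {f : Equiv.Perm (Fin n)} {v : ℤ × ℤ}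
    (h : v ∈ ((univ : Finset (Fin n)).offDiag).image (dv f)) :
    v.1 ≠ 0 ∧ v.2 ≠ 0 ∧ (v ∈ distanceVectors f ∨ -v ∈ distanceVectors f) := by
  rw [mem_image] at h
  obtain ⟨⟨i, j⟩, hij, rfl⟩ := h
  rw [mem_offDiag] at hij
  have hne : i ≠ j := hij.2.2
  refine ⟨?_, ?_, ?_⟩
  · simp only [dv]
    intro h0
    apply hne
    ext
    omega
  · simp only [dv]
    intro h0
    apply hne
    apply f.injective
    ext
    omega
  · rcases lt_or_gt_of_ne hne with h1 | h1
    · right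
      exact ⟨i, j, h1, by simp [dv]⟩
    · left
      exact ⟨j, i, h1, by simp [dv]⟩

/-- The number of pairs of dots with a given difference of their (first or second) coordinates. -/
lemma card_pairs {n : ℕ} (σ : Equiv.Perm (Fin n)) (z : ℤ) :
    ((((univ : Finset (Fin n × Fin n)).filter
      (fun p => ((σ p.2 : ℕ) : ℤ) - ((σ p.1 : ℕ) : ℤ) = z)).card : ℕ) : ℤ) ≤
        max ((n : ℤ) - |z|) 0 := by
  classical
  have key : ((univ : Finset (Fin n × Fin n)).filter
      (fun p => ((σ p.2 : ℕ) : ℤ) - ((σ p.1 : ℕ) : ℤ) = z)).card ≤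
        (Finset.range ((n : ℤ) - |z|).toNat).card := by
    rcases le_total 0 z with hz | hz
    · apply Finset.card_le_card_of_injOn (fun p => (σ p.1 : ℕ))
      · intro p hp
        rw [mem_coe, mem_filter] at hp
        rw [mem_coe, mem_range, abs_of_nonneg hz]
        have h1 := hp.2
        have h2 := (σ p.2).2
        dsimp only
        omega
      · intro p hp q hq hpq
        rw [mem_coe, mem_filter] at hp hq
        dsimp only at hpq
        have h1 := hp.2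
        have h2 := hq.2
        have e1 : σ p.1 = σ q.1 := Fin.ext hpq
        have e2 : σ p.2 = σ q.2 := by
          apply Fin.ext
          omega
        exact Prod.ext (σ.injective e1) (σ.injective e2)
    · apply Finset.card_le_card_of_injOn (fun p => (σ p.2 : ℕ))
      · intro p hp
        rw [mem_coe, mem_filter] at hp
        rw [mem_coe, mem_range, abs_of_nonpos hz]
        have h1 := hp.2
        have h2 := (σ p.1).2
        dsimp only
        omega
      · intro p hp q hq hpq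
        rw [mem_coe, mem_filter] at hp hq
        dsimp only at hpq
        have h1 := hp.2
        have h2 := hq.2
        have e1 : σ p.2 = σ q.2 := Fin.ext hpq
        have e2 : σ p.1 = σ q.1 := by
          apply Fin.ext
          omega
        exact Prod.ext (σ.injective e2) (σ.injective e1)
  rw [card_range] at key
  have h2 : ((((n : ℤ) - |z|).toNat : ℕ) : ℤ) = max ((n : ℤ) - |z|) 0 := by
    rw [Int.toNat_eq_max]
  rw [← h2]
  exact_mod_cast key

/-- The lost vectors: the pair of dots exists only across the boundary of the period `a`. -/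
def Lost {n : ℕ} (σ τ : Equiv.Perm (Fin n)) (a b : ℕ) (h d : ℤ) : Prop :=
  ∃ k k' : Fin n, ((σ k' : ℕ) : ℤ) - ((σ k : ℕ) : ℤ) ≠ h ∧
    (a : ℤ) ∣ ((σ k' : ℕ) : ℤ) - ((σ k : ℕ) : ℤ) - h ∧
    (b : ℤ) ∣ ((τ k' : ℕ) : ℤ) - ((τ k : ℕ) : ℤ) - d

open Classical in
lemma lost_card {n a b s u : ℕ} (σ τ : Equiv.Perm (Fin n)) (hna : n ≤ a + s)
    (hsu : s + u ≤ a) (hub : 2 * u ≤ b) (h : ℤ) (hh : |h| < u) :
    ((((Ioo (-(u : ℤ)) u).filter (Lost σ τ a b h)).card : ℕ) : ℤ) ≤ |h| + 2 * s := by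
  set P : Finset (Fin n × Fin n) := (univ.filter
      (fun p => ((σ p.2 : ℕ) : ℤ) - ((σ p.1 : ℕ) : ℤ) = h + a)) ∪ (univ.filter
      (fun p => ((σ p.2 : ℕ) : ℤ) - ((σ p.1 : ℕ) : ℤ) = h - a)) with hP
  have hmem : ∀ d ∈ (Ioo (-(u : ℤ)) u).filter (Lost σ τ a b h), ∃ p ∈ P,
      (b : ℤ) ∣ ((τ p.2 : ℕ) : ℤ) - ((τ p.1 : ℕ) : ℤ) - d := by
    intro d hd
    rw [mem_filter] at hd
    obtain ⟨-, k, k', h1, ⟨c, hc⟩, h3⟩ := hd
    refine ⟨(k, k'), ?_, h3⟩
    rw [hP, mem_union, mem_filter, mem_filter]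
    simp only [mem_univ, true_and]
    have hk := (σ k).2
    have hk' := (σ k').2
    rw [abs_lt] at hh
    have hc0 : c ≠ 0 := by
      rintro rfl
      apply h1
      linarith
    have hc2 : c < 2 := by
      by_contra hcon
      push Not at hcon
      have : (a : ℤ) * 2 ≤ a * c := mul_le_mul_of_nonneg_left hcon (by positivity)
      omega
    have hc3 : -2 < c := by
      by_contra hcon
      push Not at hcon
      have : (a : ℤ) * c ≤ a * (-2) := mul_le_mul_of_nonneg_left hcon (by positivity)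
      omega
    have hc4 : c = 1 ∨ c = -1 := by omega
    rcases hc4 with rfl | rfl
    · left
      linarith
    · right
      linarith
  have hcard : ((Ioo (-(u : ℤ)) u).filter (Lost σ τ a b h)).card ≤ P.card := by
    apply Finset.card_le_card_of_forall_subsingleton
      (fun d p => (b : ℤ) ∣ ((τ p.2 : ℕ) : ℤ) - ((τ p.1 : ℕ) : ℤ) - d) hmem
    intro p _ d hd d' hd'
    obtain ⟨hd, h1⟩ := hd
    obtain ⟨hd', h2⟩ := hd'
    have h3 : (b : ℤ) ∣ d - d' := by
      have := dvd_sub h2 h1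
      have e : ∀ x : ℤ, x - d' - (x - d) = d - d' := fun x => by ring
      rwa [e] at this
    rw [mem_filter, mem_Ioo] at hd hd'
    have h4 : d - d' = 0 := by
      apply Int.eq_zero_of_abs_lt_dvd h3
      rw [abs_lt]
      omega
    omega
  have hcard2 : (P.card : ℤ) ≤ max ((n : ℤ) - |h + a|) 0 + max ((n : ℤ) - |h - a|) 0 := by
    have h1 := card_pairs σ (h + a)
    have h2 := card_pairs σ (h - a)
    have h3 : P.card ≤ _ := card_union_le _ _
    have h4 : (P.card : ℤ) ≤ _ := Int.ofNat_le.2 h3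
    push_cast at h4
    linarith
  have hcard3 : ((((Ioo (-(u : ℤ)) u).filter (Lost σ τ a b h)).card : ℕ) : ℤ) ≤ P.card := by
    exact_mod_cast hcard
  refine hcard3.trans (hcard2.trans ?_)
  rw [abs_lt] at hh
  have e1 : |h + a| = h + a := abs_of_nonneg (by omega)
  have e2 : |h - a| = a - h := by
    rw [abs_of_nonpos (by omega)]
    ring
  rw [e1, e2]
  rcases abs_cases h with h1 | h1 <;> rcases max_cases ((n : ℤ) - (h + a)) 0 with h2 | h2 <;>
    rcases max_cases ((n : ℤ) - (a - h)) 0 with h3 | h3 <;> omega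

lemma sum_w_abs (u : ℕ) : 3 * ∑ d ∈ Ioo (-(u : ℤ)) u, w u d * |d| = ((u : ℤ) - 1) * u * (u + 1) := by
  induction u with
  | zero => simp
  | succ u ih =>
      rcases Nat.eq_zero_or_pos u with rfl | hu
      · have : Ioo (-((0 + 1 : ℕ) : ℤ)) ((0 + 1 : ℕ) : ℤ) = {0} := by
          ext x; simp; omega
        rw [this, sum_singleton, w_zero]
        norm_num
      have hset : Ioo (-((u + 1 : ℕ) : ℤ)) ((u + 1 : ℕ) : ℤ) =
          insert (-(u : ℤ)) (insert (u : ℤ) (Ioo (-(u : ℤ)) u)) := by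
        ext x
        simp only [mem_Ioo, mem_insert]
        push_cast
        omega
      rw [hset, sum_insert, sum_insert]
      · have h1 : ∀ d ∈ Ioo (-(u : ℤ)) u, w (u + 1) d * |d| = w u d * |d| + |d| := by
          intro d hd
          rw [mem_Ioo] at hd
          have : |d| < u := abs_lt.2 hd
          unfold w
          rw [max_eq_left (by push_cast; omega), max_eq_left (by omega)]
          push_cast; ring
        rw [sum_congr rfl h1, sum_add_distrib]
        have h2 : w (u + 1) (-(u : ℤ)) = 1 := by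
          unfold w; rw [abs_neg, abs_of_nonneg (by positivity)]; push_cast; norm_num
        have h3 : w (u + 1) (u : ℤ) = 1 := by
          unfold w; rw [abs_of_nonneg (by positivity)]; push_cast; norm_num
        have h4 : ∑ d ∈ Ioo (-(u : ℤ)) u, |d| = u * (u - 1) := by
          clear ih h1 h2 h3 hset hu
          induction u with
          | zero => simp
          | succ v ihv =>
              rcases Nat.eq_zero_or_pos v with rfl | hv
              · have : Ioo (-((0 + 1 : ℕ) : ℤ)) ((0 + 1 : ℕ) : ℤ) = {0} := by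
                  ext x; simp; omega
                rw [this, sum_singleton]
                norm_num
              have hset : Ioo (-((v + 1 : ℕ) : ℤ)) ((v + 1 : ℕ) : ℤ) =
                  insert (-(v : ℤ)) (insert (v : ℤ) (Ioo (-(v : ℤ)) v)) := by
                ext x
                simp only [mem_Ioo, mem_insert]
                push_cast
                omega
              rw [hset, sum_insert, sum_insert, ihv]
              · rw [abs_neg, abs_of_nonneg (by positivity)]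
                push_cast
                ring
              · simp
              · simp only [mem_insert, mem_Ioo]
                omega
        rw [h2, h3, h4, abs_neg, abs_of_nonneg (by positivity : (0 : ℤ) ≤ u)]
        push_cast
        linarith
      · simp
      · simp only [mem_insert, mem_Ioo]
        omega

lemma w_le (u : ℕ) (d : ℤ) : w u d ≤ u := by
  unfold w
  have := abs_nonneg d
  rcases max_cases ((u : ℤ) - |d|) 0 with h | h <;> omega

/-- The nonzero integers of absolute value less than `u`. -/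
noncomputable def box (u : ℕ) : Finset ℤ := (Ioo (-(u : ℤ)) u).erase 0

lemma mem_box {u : ℕ} {d : ℤ} : d ∈ box u ↔ d ≠ 0 ∧ |d| < u := by
  unfold box
  rw [mem_erase, mem_Ioo, abs_lt]

open Classical in
/-- The weight of the vectors with a property. -/
noncomputable def wt (u : ℕ) (P : ℤ → ℤ → Prop) : ℤ :=
  ∑ h ∈ box u, ∑ d ∈ box u, if P h d then w u h * w u d else 0

open Classical in
lemma wt_le {u : ℕ} {P : ℤ → ℤ → Prop} {c : ℤ → ℤ}
    (hc : ∀ h ∈ box u, ((((box u).filter (P h)).card : ℕ) : ℤ) ≤ c h) :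
    wt u P ≤ ∑ h ∈ box u, w u h * (u * c h) := by
  unfold wt
  apply sum_le_sum
  intro h hh
  rw [← sum_filter, ← mul_sum]
  apply mul_le_mul_of_nonneg_left _ (w_nonneg _ _)
  calc ∑ d ∈ (box u).filter (P h), w u d ≤ ∑ _d ∈ (box u).filter (P h), (u : ℤ) :=
        sum_le_sum (fun d _ => w_le u d)
    _ = (((box u).filter (P h)).card : ℤ) * u := by
        rw [sum_const, nsmul_eq_mul]
    _ ≤ u * c h := by
        rw [mul_comm]
        exact mul_le_mul_of_nonneg_left (hc h hh) (by positivity)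

lemma wt_swap (u : ℕ) (P : ℤ → ℤ → Prop) : wt u P = wt u (fun h d => P d h) := by
  classical
  unfold wt
  rw [sum_comm]
  apply sum_congr rfl
  intro h _
  apply sum_congr rfl
  intro d _
  rw [mul_comm]

lemma wt_mono3 {u : ℕ} {P Q R S : ℤ → ℤ → Prop}
    (h : ∀ x ∈ box u, ∀ y ∈ box u, P x y → Q x y ∨ R x y ∨ S x y) :
    wt u P ≤ wt u Q + wt u R + wt u S := by
  classical
  unfold wt
  rw [← sum_add_distrib, ← sum_add_distrib]
  apply sum_le_sum
  intro x hx
  rw [← sum_add_distrib, ← sum_add_distrib]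
  apply sum_le_sum
  intro y hy
  have h0 : 0 ≤ w u x * w u y := mul_nonneg (w_nonneg _ _) (w_nonneg _ _)
  by_cases hP : P x y
  · rw [if_pos hP]
    rcases h x hx y hy hP with h1 | h1 | h1
    · rw [if_pos h1]
      split_ifs <;> linarith
    · rw [if_pos h1]
      split_ifs <;> linarith
    · rw [if_pos h1]
      split_ifs <;> linarith
  · rw [if_neg hP]
    split_ifs <;> linarith

open Classical in
/-- The vectors that are not distance vectors of a nearly periodic array have small weight. -/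
lemma missing {n a b s e u : ℕ} (g : Equiv.Perm (Fin n)) (hna : n ≤ a + s) (hnb : n ≤ b + s)
    (hsa : s + u ≤ a) (hsb : s + u ≤ b) (hua : 2 * u ≤ a) (hub : 2 * u ≤ b) (hu : 0 < u)
    (hbad : ∀ h ∈ box u, ((box u).filter (fun d => ¬ ∃ k k' : Fin n,
      (a : ℤ) ∣ ((k' : ℕ) : ℤ) - ((k : ℕ) : ℤ) - h ∧
      (b : ℤ) ∣ ((g k' : ℕ) : ℤ) - ((g k : ℕ) : ℤ) - d)).card ≤ e) :
    3 * wt u (fun h d => (h, d) ∉ ((univ : Finset (Fin n)).offDiag).image (dv g)) ≤
      (u : ℤ) ^ 2 * (u - 1) * (2 * (u + 1) + 12 * s + 3 * e) := by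
  have h1 : wt u (fun h d => (h, d) ∉ ((univ : Finset (Fin n)).offDiag).image (dv g)) ≤
      wt u (fun h d => ¬ ∃ k k' : Fin n, (a : ℤ) ∣ ((k' : ℕ) : ℤ) - ((k : ℕ) : ℤ) - h ∧
        (b : ℤ) ∣ ((g k' : ℕ) : ℤ) - ((g k : ℕ) : ℤ) - d) +
      wt u (Lost 1 g a b) + wt u (fun h d => Lost g 1 b a d h) := by
    apply wt_mono3
    intro x hx y hy hxy
    by_cases hb : ¬ ∃ k k' : Fin n, (a : ℤ) ∣ ((k' : ℕ) : ℤ) - ((k : ℕ) : ℤ) - x ∧
        (b : ℤ) ∣ ((g k' : ℕ) : ℤ) - ((g k : ℕ) : ℤ) - y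
    · left
      exact hb
    · right
      push Not at hb
      obtain ⟨k, k', h1, h2⟩ := hb
      by_cases h3 : ((k' : ℕ) : ℤ) - ((k : ℕ) : ℤ) = x
      · right
        refine ⟨k, k', ?_, h2, ?_⟩
        · intro h4
          apply hxy
          rw [mem_image]
          refine ⟨(k', k), ?_, ?_⟩
          · rw [mem_offDiag]
            refine ⟨mem_univ _, mem_univ _, ?_⟩
            intro h5
            rw [mem_box] at hx
            apply hx.1
            dsimp only at h5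
            rw [← h3, h5, sub_self]
          · simp only [dv, Prod.mk.injEq]
            exact ⟨h3, h4⟩
        · simpa using h1
      · left
        refine ⟨k, k', ?_, ?_, h2⟩
        · simpa using h3
        · simpa using h1
  have hcol : ∀ h ∈ box u, ((((box u).filter (Lost 1 g a b h)).card : ℕ) : ℤ) ≤ |h| + 2 * s := by
    intro h hh
    rw [mem_box] at hh
    refine le_trans ?_ (lost_card 1 g hna hsa hub h hh.2)
    have : ((box u).filter (Lost 1 g a b h)).card ≤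
        ((Ioo (-(u : ℤ)) u).filter (Lost 1 g a b h)).card := by
      apply card_le_card
      apply filter_subset_filter
      exact erase_subset _ _
    exact_mod_cast this
  have hrow : ∀ h ∈ box u, ((((box u).filter (Lost g 1 b a h)).card : ℕ) : ℤ) ≤ |h| + 2 * s := by
    intro h hh
    rw [mem_box] at hh
    refine le_trans ?_ (lost_card g 1 hnb hsb hua h hh.2)
    have : ((box u).filter (Lost g 1 b a h)).card ≤
        ((Ioo (-(u : ℤ)) u).filter (Lost g 1 b a h)).card := by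
      apply card_le_card
      apply filter_subset_filter
      exact erase_subset _ _
    exact_mod_cast this
  have e1 := wt_le hcol
  have e2 := wt_le hrow
  have e3 := wt_le (u := u) (P := fun h d => ¬ ∃ k k' : Fin n,
      (a : ℤ) ∣ ((k' : ℕ) : ℤ) - ((k : ℕ) : ℤ) - h ∧
      (b : ℤ) ∣ ((g k' : ℕ) : ℤ) - ((g k : ℕ) : ℤ) - d) (c := fun _ => (e : ℤ)) (by
    intro h hh
    refine le_trans (le_of_eq ?_) (Int.ofNat_le.2 (hbad h hh))
    congr!)
  rw [wt_swap u (fun h d => Lost g 1 b a d h)] at h1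
  have s1 : ∑ h ∈ box u, w u h = (u : ℤ) * (u - 1) := sum_w_erase u hu
  have s2 : 3 * ∑ h ∈ box u, w u h * |h| = ((u : ℤ) - 1) * u * (u + 1) := by
    rw [← sum_w_abs u]
    unfold box
    rw [sum_erase]
    simp
  have f1 : ∑ h ∈ box u, w u h * ((u : ℤ) * (|h| + 2 * s)) =
      u * ∑ h ∈ box u, w u h * |h| + 2 * s * u * ∑ h ∈ box u, w u h := by
    rw [mul_sum, mul_sum, ← sum_add_distrib]
    apply sum_congr rfl
    intro h _
    ring
  have f2 : ∑ h ∈ box u, w u h * ((u : ℤ) * (fun _ => (e : ℤ)) h) =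
      e * u * ∑ h ∈ box u, w u h := by
    rw [mul_sum]
    apply sum_congr rfl
    intro h _
    ring
  rw [f1, s1] at e1 e2
  rw [f2, s1] at e3
  have f3 : 3 * ((u : ℤ) * ∑ h ∈ box u, w u h * |h| + 2 * s * u * (u * (u - 1))) =
      u * (((u : ℤ) - 1) * u * (u + 1)) + 6 * s * u * (u * (u - 1)) := by
    rw [← s2]
    ring
  have : 3 * wt u (fun h d => (h, d) ∉ ((univ : Finset (Fin n)).offDiag).image (dv g)) ≤
      3 * (e * u * (u * (u - 1))) + 2 * (u * (((u : ℤ) - 1) * u * (u + 1)) +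
        6 * s * u * (u * (u - 1))) := by
    linarith
  refine this.trans (le_of_eq ?_)
  ring

lemma wt_eq (u : ℕ) (P : ℤ → ℤ → Prop) [DecidablePred fun v : ℤ × ℤ => P v.1 v.2] :
    wt u P = ∑ v ∈ (box u ×ˢ box u).filter (fun v => P v.1 v.2), w u v.1 * w u v.2 := by
  classical
  rw [sum_filter, sum_product]
  unfold wt
  apply sum_congr rfl
  intro x _
  apply sum_congr rfl
  intro y _
  congr

/-- If `f` is Costas and has no distance vector in common with `g`, then all distance vectors of `f`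
are missing in `g`. -/
lemma off_le {m n : ℕ} {f : Equiv.Perm (Fin m)} {g : Equiv.Perm (Fin n)}
    (hf : IsCostas f) (hdis : ¬ (distanceVectors f ∩ distanceVectors g).Nonempty) (u : ℕ) :
    off f u ≤ wt u (fun h d => (h, d) ∉ ((univ : Finset (Fin n)).offDiag).image (dv g)) := by
  classical
  have hD : ∀ v ∈ ((univ : Finset (Fin m)).offDiag).image (dv f),
      v ∉ ((univ : Finset (Fin n)).offDiag).image (dv g) := by
    intro v hv1 hv2
    obtain ⟨h1, -, h2⟩ := mem_image_dv hv1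
    obtain ⟨-, -, h3⟩ := mem_image_dv hv2
    have pos : ∀ {k : ℕ} {h : Equiv.Perm (Fin k)} {v : ℤ × ℤ}, v ∈ distanceVectors h → 0 < v.1 := by
      rintro k h v ⟨i, j, hij, rfl⟩
      rw [Fin.lt_def] at hij
      simp only
      omega
    rcases h2 with h2 | h2 <;> rcases h3 with h3 | h3
    · exact hdis ⟨v, h2, h3⟩
    · have := pos h2
      have := pos h3
      simp only [Prod.fst_neg] at this
      omega
    · have := pos h2
      have := pos h3
      simp only [Prod.fst_neg] at *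
      omega
    · exact hdis ⟨-v, h2, h3⟩
  rw [off_eq hf, wt_eq]
  rw [← sum_filter_ne_zero]
  apply sum_le_sum_of_subset_of_nonneg _
    (fun v _ _ => mul_nonneg (w_nonneg _ _) (w_nonneg _ _))
  intro v hv
  rw [mem_filter] at hv
  obtain ⟨hv, hne⟩ := hv
  have key : ∀ d : ℤ, w u d ≠ 0 → |d| < u := by
    intro d hd
    unfold w at hd
    by_contra hcon
    exact hd (max_eq_right (by omega))
  rw [mem_filter, mem_product, mem_box, mem_box]
  refine ⟨⟨⟨(mem_image_dv hv).1, key _ (left_ne_zero_of_mul hne)⟩,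
    (mem_image_dv hv).2.1, key _ (right_ne_zero_of_mul hne)⟩, ?_⟩
  exact hD v hv

/-- The main inequality. -/
lemma main_ineq {m U r : ℤ} (hr : 0 ≤ r) (hU : 48 * r + 72 ≤ U) (h1 : 12 * U ≤ m)
    (h2 : m ≤ 12 * U + 11) :
    (m + U) ^ 2 * (3 * m + U * (2 * U + 7 + 24 * r)) < 3 * m ^ 2 * (U + 1) ^ 2 := by
  have hU0 : 72 ≤ U := by linarith
  have hm0 : 0 < m := by linarith
  have e1 : 144 * (m + U) ^ 2 ≤ 169 * m ^ 2 := by nlinarith
  have e2 : 2 * (3 * m + U * (2 * U + 7 + 24 * r)) ≤ 5 * U ^ 2 + 14 * U + 66 := by nlinarith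
  have e3 : 0 ≤ 3 * m + U * (2 * U + 7 + 24 * r) := by positivity
  have e4 : 169 * (5 * U ^ 2 + 14 * U + 66) < 144 * (6 * (U + 1) ^ 2) := by nlinarith
  have e5 : 288 * ((m + U) ^ 2 * (3 * m + U * (2 * U + 7 + 24 * r))) ≤
      169 * m ^ 2 * (5 * U ^ 2 + 14 * U + 66) := by
    calc 288 * ((m + U) ^ 2 * (3 * m + U * (2 * U + 7 + 24 * r)))
        = (144 * (m + U) ^ 2) * (2 * (3 * m + U * (2 * U + 7 + 24 * r))) := by ring
      _ ≤ (169 * m ^ 2) * (5 * U ^ 2 + 14 * U + 66) := by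
          apply mul_le_mul e1 e2 (by positivity) (by positivity)
      _ = _ := by ring
  have e6 : 169 * m ^ 2 * (5 * U ^ 2 + 14 * U + 66) < 288 * (3 * m ^ 2 * (U + 1) ^ 2) := by
    have : 0 < m ^ 2 := by positivity
    calc 169 * m ^ 2 * (5 * U ^ 2 + 14 * U + 66) = m ^ 2 * (169 * (5 * U ^ 2 + 14 * U + 66)) := by
          ring
      _ < m ^ 2 * (144 * (6 * (U + 1) ^ 2)) := mul_lt_mul_of_pos_left e4 this
      _ = _ := by ring
  linarith

open Classical in
/-- The counting argument for nearly periodic arrays. -/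
lemma periodic {m n a b r : ℕ} {f : Equiv.Perm (Fin m)} {g : Equiv.Perm (Fin n)}
    (hf : IsCostas f) (hm : 576 * r + 864 ≤ m) (hmn : m ≤ n) (hna : n ≤ a + r) (hnb : n ≤ b + r)
    (hbad : ∀ u : ℕ, 2 * u ≤ a → 2 * u ≤ b → ∀ h ∈ box u,
      ((box u).filter (fun d => ¬ ∃ k k' : Fin n,
      (a : ℤ) ∣ ((k' : ℕ) : ℤ) - ((k : ℕ) : ℤ) - h ∧
      (b : ℤ) ∣ ((g k' : ℕ) : ℤ) - ((g k : ℕ) : ℤ) - d)).card ≤ 4 * r + 1) :
    (distanceVectors f ∩ distanceVectors g).Nonempty := by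
  by_contra hdis
  obtain ⟨U, hU⟩ : ∃ U, U = m / 12 := ⟨_, rfl⟩
  have h1 := missing (u := U + 1) (e := 4 * r + 1) g hna hnb (by omega) (by omega) (by omega)
    (by omega) (by omega) (hbad (U + 1) (by omega) (by omega))
  have h2 := off_le hf hdis (U + 1)
  have h3 := second_moment f (U + 1)
  have h4 := main_ineq (m := (m : ℤ)) (U := (U : ℤ)) (r := (r : ℤ)) (by positivity) (by omega)
    (by omega) (by omega)
  push_cast at h1 h3
  have h5 : 3 * off f (U + 1) ≤ ((U : ℤ) + 1) ^ 2 * (U + 1 - 1) *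
      (2 * (U + 1 + 1) + 12 * r + 3 * (4 * r + 1)) := by
    linarith
  have h6 : 3 * ((m : ℤ) * ((U : ℤ) + 1) ^ 2) ^ 2 ≤ ((m : ℤ) + (U + 1) - 1) ^ 2 *
      (3 * (m * ((U : ℤ) + 1) ^ 2) + ((U : ℤ) + 1) ^ 2 * (U + 1 - 1) *
      (2 * (U + 1 + 1) + 12 * r + 3 * (4 * r + 1))) := by
    calc 3 * ((m : ℤ) * ((U : ℤ) + 1) ^ 2) ^ 2 ≤ 3 * (((m : ℤ) + (U + 1) - 1) ^ 2 *
          (m * ((U : ℤ) + 1) ^ 2 + off f (U + 1))) := by linarith
      _ = ((m : ℤ) + (U + 1) - 1) ^ 2 * (3 * (m * ((U : ℤ) + 1) ^ 2) + 3 * off f (U + 1)) := by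
          ring
      _ ≤ _ := by
          apply mul_le_mul_of_nonneg_left _ (by positivity)
          linarith
  have h7 : ((U : ℤ) + 1) ^ 2 * (3 * (m : ℤ) ^ 2 * (U + 1) ^ 2) ≤ ((U : ℤ) + 1) ^ 2 *
      (((m : ℤ) + U) ^ 2 * (3 * m + U * (2 * U + 7 + 24 * r))) := by
    calc ((U : ℤ) + 1) ^ 2 * (3 * (m : ℤ) ^ 2 * (U + 1) ^ 2) =
          3 * ((m : ℤ) * ((U : ℤ) + 1) ^ 2) ^ 2 := by ring
      _ ≤ _ := h6
      _ = _ := by ring
  have h8 := le_of_mul_le_mul_left h7 (by positivity)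
  linarith

lemma isCostas_symm {n : ℕ} {f : Equiv.Perm (Fin n)} (hf : IsCostas f) : IsCostas f.symm := by
  intro i j k l hij hkl h
  rw [Prod.mk.injEq] at h
  obtain ⟨h1, h2⟩ := h
  have hne : f.symm i ≠ f.symm j := fun h => hij.ne (f.symm.injective h)
  rcases lt_or_gt_of_ne hne with h3 | h3
  · have h4 : f.symm k < f.symm l := by
      rw [Fin.lt_def] at h3 ⊢
      omega
    have h5 := hf (f.symm i) (f.symm j) (f.symm k) (f.symm l) h3 h4 (by
      rw [Prod.mk.injEq]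
      simp only [Equiv.apply_symm_apply]
      exact ⟨h2, h1⟩)
    exact ⟨f.symm.injective h5.1, f.symm.injective h5.2⟩
  · have h4 : f.symm l < f.symm k := by
      rw [Fin.lt_def] at h3
      rw [Fin.lt_def]
      omega
    have h5 := hf (f.symm j) (f.symm i) (f.symm l) (f.symm k) h3 h4 (by
      rw [Prod.mk.injEq]
      simp only [Equiv.apply_symm_apply]
      constructor
      · omega
      · omega)
    exact ⟨f.symm.injective h5.2, f.symm.injective h5.1⟩

lemma mem_symm {n : ℕ} {f : Equiv.Perm (Fin n)} {s t : ℤ}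
    (h : (s, t) ∈ distanceVectors f.symm) :
    (0 < t ∧ (t, s) ∈ distanceVectors f) ∨ (t < 0 ∧ (-t, -s) ∈ distanceVectors f) := by
  obtain ⟨i, j, hij, h⟩ := h
  rw [Prod.mk.injEq] at h
  obtain ⟨rfl, rfl⟩ := h
  have hne : f.symm i ≠ f.symm j := fun h => hij.ne (f.symm.injective h)
  rcases lt_or_gt_of_ne hne with h3 | h3
  · left
    refine ⟨?_, f.symm i, f.symm j, h3, ?_⟩
    · rw [Fin.lt_def] at h3
      omega
    · simp only [Equiv.apply_symm_apply]
  · right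
    refine ⟨?_, f.symm j, f.symm i, h3, ?_⟩
    · rw [Fin.lt_def] at h3
      omega
    · simp only [Equiv.apply_symm_apply]
      rw [Prod.mk.injEq]
      constructor
      · ring
      · ring

/-- Counting: a set of columns meets all but `r` of `N` classes up to `2 r`. -/
lemma count_missing {n Q N r : ℕ} {F : Type} [Finite F] (φ : Fin n → F) (K : Set (Fin n))
    (E X : Set F)
    (hinj : ∀ k ∈ K, ∀ l ∈ K, (k : ℕ) < Q → (l : ℕ) < Q → φ k = φ l → k = l)
    (hn : n ≤ Q + r) (hK : N ≤ K.ncard + r) (hE : E.ncard ≤ N) (hφ : ∀ k ∈ K, φ k ∈ E)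
    (hX : X ⊆ E) (hXφ : ∀ k ∈ K, φ k ∉ X) : X.ncard ≤ 2 * r := by
  set K' : Set (Fin n) := {k | k ∈ K ∧ (k : ℕ) < Q} with hK'
  have h1 : K.ncard ≤ K'.ncard + r := by
    have hsub : K ⊆ K' ∪ {k : Fin n | Q ≤ (k : ℕ)} := by
      intro k hk
      by_cases h : (k : ℕ) < Q
      · left
        exact ⟨hk, h⟩
      · right
        exact not_lt.1 h
    have h2 := Set.ncard_le_ncard hsub (Set.toFinite _)
    have h3 := Set.ncard_union_le K' {k : Fin n | Q ≤ (k : ℕ)}
    have h4 : {k : Fin n | Q ≤ (k : ℕ)}.ncard ≤ r := by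
      have h5 : {k : Fin n | Q ≤ (k : ℕ)}.ncard ≤ (Set.Ico Q n : Set ℕ).ncard := by
        apply Set.ncard_le_ncard_of_injOn (fun k : Fin n => (k : ℕ))
        · intro k hk
          exact ⟨hk, k.2⟩
        · intro k _ l _ hkl
          exact Fin.ext hkl
      have h6 : (Set.Ico Q n : Set ℕ).ncard = n - Q := by
        rw [← Finset.coe_Ico, Set.ncard_coe_finset, Nat.card_Ico]
      omega
    omega
  have h2 : (φ '' K').ncard = K'.ncard := by
    apply Set.InjOn.ncard_image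
    intro k hk l hl hkl
    exact hinj k hk.1 l hl.1 hk.2 hl.2 hkl
  have h3 : Disjoint X (φ '' K') := by
    rw [Set.disjoint_left]
    rintro x hx ⟨k, hk, rfl⟩
    exact hXφ k hk.1 hx
  have h4 : X ∪ φ '' K' ⊆ E := by
    rintro x (hx | ⟨k, hk, rfl⟩)
    · exact hX hx
    · exact hφ k hk.1
  have h5 := Set.ncard_le_ncard h4 (Set.toFinite _)
  rw [Set.ncard_union_eq h3 (Set.toFinite _) (Set.toFinite _)] at h5
  omega

open Classical in
lemma golomb_bad {F : Type} [Field F] [Fintype F] {α β : Fˣ} {u₀ v₀ : ℤ} {n r : ℕ}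
    {g : Equiv.Perm (Fin n)}
    (hα : orderOf α = Fintype.card F - 1) (hβ : orderOf β = Fintype.card F - 1)
    (hX : {x : F | x ≠ 0 ∧ x ≠ 1 ∧ ¬ ∃ k : Fin n, ((α ^ (u₀ + ((k : ℕ) : ℤ)) : Fˣ) : F) = x ∧
      ((β ^ (v₀ + ((g k : ℕ) : ℤ)) : Fˣ) : F) = 1 - x}.ncard ≤ r)
    {u : ℕ} (hu : 2 * u ≤ Fintype.card F - 1) {h : ℤ} (hh : h ∈ box u) :
    ((box u).filter (fun d => ¬ ∃ k k' : Fin n,
      ((Fintype.card F - 1 : ℕ) : ℤ) ∣ ((k' : ℕ) : ℤ) - ((k : ℕ) : ℤ) - h ∧
      ((Fintype.card F - 1 : ℕ) : ℤ) ∣ ((g k' : ℕ) : ℤ) - ((g k : ℕ) : ℤ) - d)).card ≤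
        2 * r + 1 := by
  set X : Set F := {x : F | x ≠ 0 ∧ x ≠ 1 ∧ ¬ ∃ k : Fin n,
      ((α ^ (u₀ + ((k : ℕ) : ℤ)) : Fˣ) : F) = x ∧
      ((β ^ (v₀ + ((g k : ℕ) : ℤ)) : Fˣ) : F) = 1 - x} with hXdef
  have hXr : X.toFinset.card ≤ r := by
    rw [← Set.ncard_eq_toFinset_card']
    exact hX
  rw [mem_box] at hh
  have hA1 : ((α ^ h : Fˣ) : F) ≠ 1 := by
    intro h1
    have h2 : α ^ h = 1 := Units.ext h1
    rw [← orderOf_dvd_iff_zpow_eq_one, hα] at h2
    exact hh.1 (Int.eq_zero_of_abs_lt_dvd h2 (by omega))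
  set A : F := ((α ^ h : Fˣ) : F) with hA
  have hA0 : A ≠ 0 := Units.ne_zero _
  set T : Finset F := insert A ((X.toFinset.image (fun x => (A * x - 1) / (x - 1))) ∪
    (X.toFinset.image (fun x => A * (x - 1) / (x - A)))) with hT
  have hTcard : T.card ≤ 2 * r + 1 := by
    refine (card_insert_le _ _).trans ?_
    have h1 := card_union_le (X.toFinset.image (fun x => (A * x - 1) / (x - 1)))
      (X.toFinset.image (fun x => A * (x - 1) / (x - A)))
    have h2 : (X.toFinset.image (fun x => (A * x - 1) / (x - 1))).card ≤ X.toFinset.card :=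
      card_image_le
    have h3 : (X.toFinset.image (fun x => A * (x - 1) / (x - A))).card ≤ X.toFinset.card :=
      card_image_le
    omega
  refine le_trans ?_ hTcard
  apply card_le_card_of_injOn (fun d : ℤ => ((β ^ d : Fˣ) : F))
  · intro d hd
    rw [mem_coe, mem_filter, mem_box] at hd
    obtain ⟨⟨hd0, hdu⟩, hbad⟩ := hd
    have hB1 : ((β ^ d : Fˣ) : F) ≠ 1 := by
      intro h1
      have h2 : β ^ d = 1 := Units.ext h1
      rw [← orderOf_dvd_iff_zpow_eq_one, hβ] at h2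
      exact hd0 (Int.eq_zero_of_abs_lt_dvd h2 (by omega))
    rw [mem_coe]
    dsimp only
    set B : F := ((β ^ d : Fˣ) : F) with hB
    have hB0 : B ≠ 0 := Units.ne_zero _
    rw [hT, mem_insert, mem_union, mem_image, mem_image]
    by_cases hBA : B = A
    · left
      exact hBA
    right
    have hAB : A - B ≠ 0 := fun h => hBA (sub_eq_zero.1 h).symm
    have hB1' : 1 - B ≠ 0 := fun h => hB1 (sub_eq_zero.1 h).symm
    have hA1' : A - 1 ≠ 0 := fun h => hA1 (sub_eq_zero.1 h)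
    have hA1'' : 1 - A ≠ 0 := fun h => hA1 (sub_eq_zero.1 h).symm
    obtain ⟨x, hx⟩ : ∃ x, x = (1 - B) / (A - B) := ⟨_, rfl⟩
    have e1 : 1 - x = (A - 1) / (A - B) := by
      rw [hx]
      field_simp
      ring
    have e2 : 1 - A * x = B * (A - 1) / (A - B) := by
      rw [hx]
      field_simp
      ring
    have hx0 : x ≠ 0 := by
      rw [hx]
      exact div_ne_zero hB1' hAB
    have hx1 : 1 - x ≠ 0 := by
      rw [e1]
      exact div_ne_zero hA1' hAB
    have hx2 : 1 - A * x ≠ 0 := by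
      rw [e2]
      exact div_ne_zero (mul_ne_zero hB0 hA1') hAB
    by_cases hX1 : x ∈ X
    · left
      refine ⟨x, by rw [Set.mem_toFinset]; exact hX1, ?_⟩
      have h3 : x - 1 ≠ 0 := fun h => hx1 (by rw [← neg_sub, h, neg_zero])
      rw [div_eq_iff h3]
      have h4 : A * x - 1 = -(1 - A * x) := by ring
      have h5 : x - 1 = -(1 - x) := by ring
      rw [h4, h5, e1, e2]
      field_simp
    by_cases hX2 : A * x ∈ X
    · right
      refine ⟨A * x, by rw [Set.mem_toFinset]; exact hX2, ?_⟩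
      have h5 : A * x - A = -(A * (1 - x)) := by ring
      have h3 : A * x - A ≠ 0 := by
        rw [h5]
        exact neg_ne_zero.2 (mul_ne_zero hA0 hx1)
      rw [div_eq_iff h3]
      have h4 : A * x - 1 = -(1 - A * x) := by ring
      rw [h4, h5, e1, e2]
      field_simp
    exfalso
    apply hbad
    have hx1' : x ≠ 1 := fun h => hx1 (by rw [h, sub_self])
    have hx2' : A * x ≠ 1 := fun h => hx2 (by rw [h, sub_self])
    have g1 : ∃ k : Fin n, ((α ^ (u₀ + ((k : ℕ) : ℤ)) : Fˣ) : F) = x ∧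
        ((β ^ (v₀ + ((g k : ℕ) : ℤ)) : Fˣ) : F) = 1 - x := by
      by_contra hcon
      exact hX1 ⟨hx0, hx1', hcon⟩
    have g2 : ∃ k : Fin n, ((α ^ (u₀ + ((k : ℕ) : ℤ)) : Fˣ) : F) = A * x ∧
        ((β ^ (v₀ + ((g k : ℕ) : ℤ)) : Fˣ) : F) = 1 - A * x := by
      by_contra hcon
      exact hX2 ⟨mul_ne_zero hA0 hx0, hx2', hcon⟩
    obtain ⟨k, hk1, hk2⟩ := g1
    obtain ⟨k', hk1', hk2'⟩ := g2
    refine ⟨k, k', ?_, ?_⟩
    · rw [← hα, orderOf_dvd_iff_zpow_eq_one]
      have h3 : α ^ (u₀ + ((k' : ℕ) : ℤ)) = α ^ h * α ^ (u₀ + ((k : ℕ) : ℤ)) := by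
        apply Units.ext
        rw [Units.val_mul, hk1', hk1]
      have h4 : ((k' : ℕ) : ℤ) - ((k : ℕ) : ℤ) - h =
          (u₀ + ((k' : ℕ) : ℤ)) - (h + (u₀ + ((k : ℕ) : ℤ))) := by ring
      rw [h4, zpow_sub, h3, ← zpow_add, mul_inv_cancel]
    · rw [← hβ, orderOf_dvd_iff_zpow_eq_one]
      have h3 : β ^ (v₀ + ((g k' : ℕ) : ℤ)) = β ^ d * β ^ (v₀ + ((g k : ℕ) : ℤ)) := by
        apply Units.ext
        rw [Units.val_mul, hk2', hk2, e1, e2, ← hB]
        field_simp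
      have h4 : ((g k' : ℕ) : ℤ) - ((g k : ℕ) : ℤ) - d =
          (v₀ + ((g k' : ℕ) : ℤ)) - (d + (v₀ + ((g k : ℕ) : ℤ))) := by ring
      rw [h4, zpow_sub, h3, ← zpow_add, mul_inv_cancel]
  · intro d hd d' hd' hdd
    rw [mem_coe, mem_filter, mem_box] at hd hd'
    dsimp only at hdd
    have h1 : β ^ d = β ^ d' := Units.ext hdd
    have h2 : β ^ (d - d') = 1 := by rw [zpow_sub, h1, mul_inv_cancel]
    rw [← orderOf_dvd_iff_zpow_eq_one, hβ] at h2
    have h3 := hd.1.2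
    have h4 := hd'.1.2
    rw [abs_lt] at h3 h4
    have h5 : d - d' = 0 := by
      apply Int.eq_zero_of_abs_lt_dvd h2
      rw [abs_lt]
      omega
    omega

open Classical in
lemma welch_bad {p : ℕ} (hp : p.Prime) {γ : (ZMod p)ˣ} {u₀ v₀ : ℤ} {n r : ℕ}
    {g : Equiv.Perm (Fin n)} (hγ : orderOf γ = p - 1)
    (hX : {x : ZMod p | x ≠ 0 ∧ ¬ ∃ k : Fin n,
      ((γ ^ (u₀ + ((k : ℕ) : ℤ)) : (ZMod p)ˣ) : ZMod p) = x ∧
      ((v₀ + ((g k : ℕ) : ℤ) : ℤ) : ZMod p) = x}.ncard ≤ r)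
    {u : ℕ} (hu : 2 * u ≤ p - 1) {h : ℤ} (hh : h ∈ box u) :
    ((box u).filter (fun d => ¬ ∃ k k' : Fin n,
      ((p - 1 : ℕ) : ℤ) ∣ ((k' : ℕ) : ℤ) - ((k : ℕ) : ℤ) - h ∧
      (p : ℤ) ∣ ((g k' : ℕ) : ℤ) - ((g k : ℕ) : ℤ) - d)).card ≤ 2 * r + 1 := by
  have : Fact p.Prime := ⟨hp⟩
  set X : Set (ZMod p) := {x : ZMod p | x ≠ 0 ∧ ¬ ∃ k : Fin n,
      ((γ ^ (u₀ + ((k : ℕ) : ℤ)) : (ZMod p)ˣ) : ZMod p) = x ∧
      ((v₀ + ((g k : ℕ) : ℤ) : ℤ) : ZMod p) = x} with hXdef
  have hXr : X.toFinset.card ≤ r := by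
    rw [← Set.ncard_eq_toFinset_card']
    exact hX
  rw [mem_box] at hh
  have hG1 : ((γ ^ h : (ZMod p)ˣ) : ZMod p) ≠ 1 := by
    intro h1
    have h2 : γ ^ h = 1 := Units.ext h1
    rw [← orderOf_dvd_iff_zpow_eq_one, hγ] at h2
    exact hh.1 (Int.eq_zero_of_abs_lt_dvd h2 (by omega))
  set G : ZMod p := ((γ ^ h : (ZMod p)ˣ) : ZMod p) with hG
  have hG0 : G ≠ 0 := Units.ne_zero _
  have hG1' : G - 1 ≠ 0 := fun h => hG1 (sub_eq_zero.1 h)
  set T : Finset (ZMod p) := (X.toFinset.image (fun x => (G - 1) * x)) ∪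
    (X.toFinset.image (fun x => (G - 1) * x / G)) with hT
  have hTcard : T.card ≤ 2 * r + 1 := by
    rw [hT]
    have h1 := card_union_le (X.toFinset.image (fun x => (G - 1) * x))
      (X.toFinset.image (fun x => (G - 1) * x / G))
    have h2 : (X.toFinset.image (fun x => (G - 1) * x)).card ≤ X.toFinset.card := card_image_le
    have h3 : (X.toFinset.image (fun x => (G - 1) * x / G)).card ≤ X.toFinset.card := card_image_le
    omega
  refine le_trans ?_ hTcard
  apply card_le_card_of_injOn (fun d : ℤ => (d : ZMod p))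
  · intro d hd
    rw [mem_coe, mem_filter, mem_box] at hd
    obtain ⟨⟨hd0, hdu⟩, hbad⟩ := hd
    have hD0 : (d : ZMod p) ≠ 0 := by
      intro h1
      rw [ZMod.intCast_zmod_eq_zero_iff_dvd] at h1
      exact hd0 (Int.eq_zero_of_abs_lt_dvd h1 (by omega))
    rw [mem_coe]
    dsimp only
    rw [hT, mem_union, mem_image, mem_image]
    obtain ⟨x, hx⟩ : ∃ x, x = (d : ZMod p) / (G - 1) := ⟨_, rfl⟩
    have hx0 : x ≠ 0 := by
      rw [hx]
      exact div_ne_zero hD0 hG1'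
    have hdx : (G - 1) * x = (d : ZMod p) := by
      rw [hx]
      field_simp
    by_cases hX1 : x ∈ X
    · left
      exact ⟨x, by rw [Set.mem_toFinset]; exact hX1, hdx⟩
    by_cases hX2 : G * x ∈ X
    · right
      refine ⟨G * x, by rw [Set.mem_toFinset]; exact hX2, ?_⟩
      rw [← hdx]
      field_simp
    exfalso
    apply hbad
    have g1 : ∃ k : Fin n, ((γ ^ (u₀ + ((k : ℕ) : ℤ)) : (ZMod p)ˣ) : ZMod p) = x ∧
        ((v₀ + ((g k : ℕ) : ℤ) : ℤ) : ZMod p) = x := by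
      by_contra hcon
      exact hX1 ⟨hx0, hcon⟩
    have g2 : ∃ k : Fin n, ((γ ^ (u₀ + ((k : ℕ) : ℤ)) : (ZMod p)ˣ) : ZMod p) = G * x ∧
        ((v₀ + ((g k : ℕ) : ℤ) : ℤ) : ZMod p) = G * x := by
      by_contra hcon
      exact hX2 ⟨mul_ne_zero hG0 hx0, hcon⟩
    obtain ⟨k, hk1, hk2⟩ := g1
    obtain ⟨k', hk1', hk2'⟩ := g2
    refine ⟨k, k', ?_, ?_⟩
    · rw [← hγ, orderOf_dvd_iff_zpow_eq_one]
      have h3 : γ ^ (u₀ + ((k' : ℕ) : ℤ)) = γ ^ h * γ ^ (u₀ + ((k : ℕ) : ℤ)) := by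
        apply Units.ext
        rw [Units.val_mul, hk1', hk1]
      have h4 : ((k' : ℕ) : ℤ) - ((k : ℕ) : ℤ) - h =
          (u₀ + ((k' : ℕ) : ℤ)) - (h + (u₀ + ((k : ℕ) : ℤ))) := by ring
      rw [h4, zpow_sub, h3, ← zpow_add, mul_inv_cancel]
    · rw [← ZMod.intCast_zmod_eq_zero_iff_dvd]
      have h4 : ((((g k' : ℕ) : ℤ) - ((g k : ℕ) : ℤ) - d : ℤ) : ZMod p) =
          ((v₀ + ((g k' : ℕ) : ℤ) : ℤ) : ZMod p) - ((v₀ + ((g k : ℕ) : ℤ) : ℤ) : ZMod p) - d := by
        push_cast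
        ring
      rw [h4, hk2, hk2', ← hdx]
      ring
  · intro d hd d' hd' hdd
    rw [mem_coe, mem_filter, mem_box] at hd hd'
    dsimp only at hdd
    have h2 : (p : ℤ) ∣ d - d' := by
      rw [← ZMod.intCast_zmod_eq_zero_iff_dvd]
      push_cast
      rw [hdd, sub_self]
    have h3 := hd.1.2
    have h4 := hd'.1.2
    rw [abs_lt] at h3 h4
    have h5 : d - d' = 0 := by
      apply Int.eq_zero_of_abs_lt_dvd h2
      rw [abs_lt]
      omega
    omega

lemma golomb_common {m n r : ℕ} {f : Equiv.Perm (Fin m)} {g : Equiv.Perm (Fin n)}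
    (hf : IsCostas f) (hm : 576 * r + 864 ≤ m) (hmn : m ≤ n) (hg : NearGolomb r g) :
    (distanceVectors f ∩ distanceVectors g).Nonempty := by
  classical
  obtain ⟨F, hF, hF', α₀, β₀, u₀, v₀, hα, hβ, hn, hK⟩ := hg
  have hq : 2 ≤ Fintype.card F - 1 := by omega
  have ne0 : ∀ x : F, orderOf x = Fintype.card F - 1 → x ≠ 0 := by
    rintro x hx rfl
    have h1 := pow_orderOf_eq_one (0 : F)
    rw [hx, zero_pow (by omega)] at h1
    exact zero_ne_one h1
  obtain ⟨α, rfl⟩ : ∃ α : Fˣ, (α : F) = α₀ := ⟨Units.mk0 α₀ (ne0 _ hα), rfl⟩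
  obtain ⟨β, rfl⟩ : ∃ β : Fˣ, (β : F) = β₀ := ⟨Units.mk0 β₀ (ne0 _ hβ), rfl⟩
  rw [orderOf_units] at hα hβ
  have cα : ∀ k : ℕ, ((α ^ (((u₀ : ℕ) : ℤ) + (k : ℤ)) : Fˣ) : F) = (α : F) ^ (u₀ + k) := by
    intro k
    rw [← Nat.cast_add, zpow_natCast, Units.val_pow_eq_pow_val]
  have cβ : ∀ k : ℕ, ((β ^ (((v₀ : ℕ) : ℤ) + (k : ℤ)) : Fˣ) : F) = (β : F) ^ (v₀ + k) := by
    intro k
    rw [← Nat.cast_add, zpow_natCast, Units.val_pow_eq_pow_val]
  have hX : {x : F | x ≠ 0 ∧ x ≠ 1 ∧ ¬ ∃ k : Fin n,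
      ((α ^ (((u₀ : ℕ) : ℤ) + ((k : ℕ) : ℤ)) : Fˣ) : F) = x ∧
      ((β ^ (((v₀ : ℕ) : ℤ) + ((g k : ℕ) : ℤ)) : Fˣ) : F) = 1 - x}.ncard ≤ 2 * r := by
    apply count_missing (Q := Fintype.card F - 1) (N := Fintype.card F - 2)
      (fun k : Fin n => (α : F) ^ (u₀ + (k : ℕ)))
      {k : Fin n | (α : F) ^ (u₀ + (k : ℕ)) + (β : F) ^ (v₀ + (g k : ℕ)) = 1}
      {x : F | x ≠ 0 ∧ x ≠ 1}
    · intro k _ l _ hk hl hkl
      have h1 : α ^ (u₀ + (k : ℕ)) = α ^ (u₀ + (l : ℕ)) := by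
        apply Units.ext
        rw [Units.val_pow_eq_pow_val, Units.val_pow_eq_pow_val]
        exact hkl
      rw [pow_eq_pow_iff_modEq, hα] at h1
      have h2 : (k : ℕ) ≡ (l : ℕ) [MOD Fintype.card F - 1] := Nat.ModEq.add_left_cancel' _ h1
      apply Fin.ext
      rw [Nat.ModEq, Nat.mod_eq_of_lt hk, Nat.mod_eq_of_lt hl] at h2
      exact h2
    · exact hn
    · exact hK
    · have h1 : {x : F | x ≠ 0 ∧ x ≠ 1} = (((univ : Finset F).erase 0).erase 1 : Finset F) := by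
        ext x
        simp only [Set.mem_ofPred_eq, coe_erase, coe_univ, Set.mem_sdiff, Set.mem_univ,
          Set.mem_singleton_iff, true_and]
      rw [h1, Set.ncard_coe_finset, card_erase_of_mem, card_erase_of_mem (mem_univ _), card_univ]
      · omega
      · rw [mem_erase]
        exact ⟨one_ne_zero, mem_univ _⟩
    · intro k hk
      refine ⟨pow_ne_zero _ (Units.ne_zero α), ?_⟩
      intro h1
      have h2 : (α : F) ^ (u₀ + (k : ℕ)) + (β : F) ^ (v₀ + (g k : ℕ)) = 1 := hk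
      rw [h1] at h2
      have h3 : (β : F) ^ (v₀ + (g k : ℕ)) = 0 := by
        linear_combination h2
      exact pow_ne_zero _ (Units.ne_zero β) h3
    · rintro x ⟨hx0, hx1, -⟩
      exact ⟨hx0, hx1⟩
    · rintro k hk ⟨-, -, hx⟩
      apply hx
      refine ⟨k, cα k, ?_⟩
      rw [cβ]
      have h2 : (α : F) ^ (u₀ + (k : ℕ)) + (β : F) ^ (v₀ + (g k : ℕ)) = 1 := hk
      linear_combination h2
  apply periodic (a := Fintype.card F - 1) (b := Fintype.card F - 1) hf hm hmn hn hn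
  intro u hu _ h hh
  refine (golomb_bad hα hβ hX hu hh).trans (by omega)

lemma welch_common {m n r : ℕ} {f : Equiv.Perm (Fin m)} {g : Equiv.Perm (Fin n)}
    (hf : IsCostas f) (hm : 576 * r + 864 ≤ m) (hmn : m ≤ n) (hg : NearWelch r g) :
    (distanceVectors f ∩ distanceVectors g).Nonempty := by
  classical
  obtain ⟨p, hp, γ₀, u₀, v₀, hγ, hn, hK⟩ := hg
  have : Fact p.Prime := ⟨hp⟩
  have hq : 2 ≤ p - 1 := by omega
  have hγ0 : γ₀ ≠ 0 := by
    rintro rfl
    have h1 := pow_orderOf_eq_one (0 : ZMod p)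
    rw [hγ, zero_pow (by omega)] at h1
    exact zero_ne_one h1
  obtain ⟨γ, rfl⟩ : ∃ γ : (ZMod p)ˣ, (γ : ZMod p) = γ₀ := ⟨Units.mk0 γ₀ hγ0, rfl⟩
  rw [orderOf_units] at hγ
  have cγ : ∀ k : ℕ, ((γ ^ (((u₀ : ℕ) : ℤ) + (k : ℤ)) : (ZMod p)ˣ) : ZMod p) =
      (γ : ZMod p) ^ (u₀ + k) := by
    intro k
    rw [← Nat.cast_add, zpow_natCast, Units.val_pow_eq_pow_val]
  have hX : {x : ZMod p | x ≠ 0 ∧ ¬ ∃ k : Fin n,
      ((γ ^ (((u₀ : ℕ) : ℤ) + ((k : ℕ) : ℤ)) : (ZMod p)ˣ) : ZMod p) = x ∧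
      ((((v₀ : ℕ) : ℤ) + ((g k : ℕ) : ℤ) : ℤ) : ZMod p) = x}.ncard ≤ 2 * r := by
    apply count_missing (Q := p - 1) (N := p - 1)
      (fun k : Fin n => (γ : ZMod p) ^ (u₀ + (k : ℕ)))
      {k : Fin n | (γ : ZMod p) ^ (u₀ + (k : ℕ)) = ((v₀ + (g k : ℕ) : ℕ) : ZMod p)}
      {x : ZMod p | x ≠ 0}
    · intro k _ l _ hk hl hkl
      have h1 : γ ^ (u₀ + (k : ℕ)) = γ ^ (u₀ + (l : ℕ)) := by
        apply Units.ext
        rw [Units.val_pow_eq_pow_val, Units.val_pow_eq_pow_val]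
        exact hkl
      rw [pow_eq_pow_iff_modEq, hγ] at h1
      have h2 : (k : ℕ) ≡ (l : ℕ) [MOD p - 1] := Nat.ModEq.add_left_cancel' _ h1
      apply Fin.ext
      rw [Nat.ModEq, Nat.mod_eq_of_lt hk, Nat.mod_eq_of_lt hl] at h2
      exact h2
    · exact hn
    · exact hK
    · have h1 : {x : ZMod p | x ≠ 0} = ((univ : Finset (ZMod p)).erase 0 : Finset (ZMod p)) := by
        ext x
        simp
      rw [h1, Set.ncard_coe_finset, card_erase_of_mem (mem_univ _), card_univ, ZMod.card]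
    · intro k _
      exact pow_ne_zero _ (Units.ne_zero γ)
    · rintro x ⟨hx0, -⟩
      exact hx0
    · rintro k hk ⟨-, hx⟩
      apply hx
      refine ⟨k, cγ k, ?_⟩
      have h2 : (γ : ZMod p) ^ (u₀ + (k : ℕ)) = ((v₀ + (g k : ℕ) : ℕ) : ZMod p) := hk
      rw [h2]
      push_cast
      ring
  apply periodic (a := p - 1) (b := p) hf hm hmn hn (by omega)
  intro u hu _ h hh
  refine (welch_bad hp hγ hX hu hh).trans (by omega)

lemma common_of_symm {m n : ℕ} {f : Equiv.Perm (Fin m)} {g : Equiv.Perm (Fin n)}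
    (h : (distanceVectors f.symm ∩ distanceVectors g.symm).Nonempty) :
    (distanceVectors f ∩ distanceVectors g).Nonempty := by
  obtain ⟨⟨s, t⟩, h1, h2⟩ := h
  rcases mem_symm h1 with ⟨ht, h3⟩ | ⟨ht, h3⟩ <;> rcases mem_symm h2 with ⟨ht', h4⟩ | ⟨ht', h4⟩
  · exact ⟨_, h3, h4⟩
  · omega
  · omega
  · exact ⟨_, h3, h4⟩

lemma near_of_golomb {F : Type} [Field F] [Fintype F] {α β : F}
    {g : Equiv.Perm (Fin (Fintype.card F - 2))} (hg : IsGolomb F α β g) : NearGolomb 0 g := by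
  obtain ⟨hα, hβ, h⟩ := hg
  refine ⟨F, inferInstance, inferInstance, α, β, 1, 1, hα, hβ, by omega, ?_⟩
  have h1 : ∀ k : Fin (Fintype.card F - 2), α ^ (1 + (k : ℕ)) + β ^ (1 + (g k : ℕ)) = 1 := by
    intro k
    rw [add_comm 1, add_comm 1]
    exact h k
  have h2 : Nat.card {k : Fin (Fintype.card F - 2) // α ^ (1 + (k : ℕ)) + β ^ (1 + (g k : ℕ)) = 1} =
      Fintype.card F - 2 := by
    rw [Nat.card_congr (Equiv.subtypeUnivEquiv h1), Nat.card_eq_fintype_card, Fintype.card_fin]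
  omega

end Pool.Agent.CVA
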