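import Mathlib

/-!
# Costas arrays, distance vectors, and arrays close to the periodic Golomb and Welch arrays
-/

namespace Pool.Agent.CVA

/-- `f` is a Costas permutation of order `n` (rows and columns are indexed by `0, …, n - 1`):
the vectors `(j - i, f j - f i)`, `i < j`, are pairwise distinct. -/
def IsCostas {n : ℕ} (f : Equiv.Perm (Fin n)) : Prop :=
  ∀ i j k l : Fin n, i < j → k < l →
    (((j : ℕ) : ℤ) - ((i : ℕ) : ℤ), ((f j : ℕ) : ℤ) - ((f i : ℕ) : ℤ)) =
      (((l : ℕ) : ℤ) - ((k : ℕ) : ℤ), ((f l : ℕ) : ℤ) - ((f k : ℕ) : ℤ)) →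
    i = k ∧ j = l

/-- The set of distance vectors `(j - i, f j - f i)`, `i < j`, of a permutation. -/
def distanceVectors {n : ℕ} (f : Equiv.Perm (Fin n)) : Set (ℤ × ℤ) :=
  {v | ∃ i j : Fin n, i < j ∧
    v = (((j : ℕ) : ℤ) - ((i : ℕ) : ℤ), ((f j : ℕ) : ℤ) - ((f i : ℕ) : ℤ))}

/-- The permutation `g` of `Fin n` is, up to `r` dots, a window of the doubly periodic Golomb array
`{(i, j) : α ^ i + β ^ j = 1}` of a finite field `F` with primitive elements `α, β`: at least
`|F| - 2 - r` of the dots of `g`, shifted by `(u, v)`, are dots of the periodic array (which has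
`|F| - 2` dots in every period), and the order `n` of `g` exceeds the period `|F| - 1` by at most
`r`. -/
def NearGolomb (r : ℕ) {n : ℕ} (g : Equiv.Perm (Fin n)) : Prop :=
  ∃ (F : Type) (_ : Field F) (_ : Fintype F) (α β : F) (u v : ℕ),
    orderOf α = Fintype.card F - 1 ∧ orderOf β = Fintype.card F - 1 ∧
    n ≤ Fintype.card F - 1 + r ∧
    Fintype.card F - 2 ≤ Nat.card {k : Fin n // α ^ (u + k) + β ^ (v + g k) = 1} + r

/-- The permutation `g` of `Fin n` is, up to `r` dots, a window of the periodic Welch array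
`{(i, j) : γ ^ i = j mod p}` of a prime `p` with primitive root `γ`: at least `p - 1 - r` of the
dots of `g`, shifted by `(u, v)`, are dots of the periodic array (which has `p - 1` dots in every
period), and the order `n` of `g` exceeds the period `p - 1` by at most `r`. -/
def NearWelch (r : ℕ) {n : ℕ} (g : Equiv.Perm (Fin n)) : Prop :=
  ∃ (p : ℕ) (_ : p.Prime) (γ : ZMod p) (u v : ℕ),
    orderOf γ = p - 1 ∧ n ≤ p - 1 + r ∧
    p - 1 ≤ Nat.card {k : Fin n // γ ^ (u + k) = ((v + g k : ℕ) : ZMod p)} + r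

/-- `g` is a Golomb permutation of order `q - 2` (rows and columns are numbered `0, …, q - 3`). -/
def IsGolomb (F : Type) [Field F] [Fintype F] (α β : F)
    (g : Equiv.Perm (Fin (Fintype.card F - 2))) : Prop :=
  orderOf α = Fintype.card F - 1 ∧ orderOf β = Fintype.card F - 1 ∧
    ∀ i : Fin (Fintype.card F - 2), α ^ ((i : ℕ) + 1) + β ^ ((g i : ℕ) + 1) = 1

end Pool.Agent.CVA
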